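import Pool.Agent.X63.BHGraph

/-!
A maximal planar graph `G` with `f(G,2) > 0`.
-/

set_option autoImplicit false

namespace Pool.Agent.Results.MP_7589f8_co.BiHeavyForced

open Pool.Agent.X63

/-- There is a maximal planar graph `G` (on 70 vertices) with `f(G,2) > 0`: every orientation of
`G` has a vertex with in-degree at least `2` and out-degree at least `2`. -/
theorem result : ∃ G : SimpleGraph (Fin 70), MaximalPlanar G ∧ 0 < heavyG G 2 := by
  have hfin : {H : SimpleGraph (Fin 70) | IsPlanar H}.Finite := Set.toFinite _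
  obtain ⟨H, hGH, hH⟩ := hfin.exists_le_maximal (a := BH.G0) BH.planar_G0
  refine ⟨H, ⟨hH.1, fun K hK hp => ?_⟩, ?_⟩
  · exact le_antisymm (hH.2 hp hK) hK
  · have hne : {m : ℕ | ∃ D : Fin 70 → Fin 70 → Prop, IsOrientation H D ∧ m = heavyD D 2}.Nonempty := by
      refine ⟨_, fun u v => H.Adj u v ∧ u < v, ⟨fun u v h => h.1, fun u v h => ?_⟩, rfl⟩
      rcases lt_or_gt_of_ne h.ne with h' | h'
      · exact Or.inl ⟨⟨h, h'⟩, fun x => absurd x.2 (not_lt.mpr h'.le)⟩
      · exact Or.inr ⟨⟨h.symm, h'⟩, fun x => absurd x.2 (not_lt.mpr h'.le)⟩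
    obtain ⟨D, hD, hm⟩ := Nat.sInf_mem hne
    unfold heavyG
    rw [hm]
    obtain ⟨v, h1, h2⟩ := BH.heavy_G0 (fun u v => D u v ∧ BH.G0.Adj u v) (by
      refine ⟨fun u v h => h.2, fun u v h => ?_⟩
      rcases hD.2 u v (hGH h) with x | x
      · exact Or.inl ⟨⟨x.1, h⟩, fun y => x.2 y.1⟩
      · exact Or.inr ⟨⟨x.1, h.symm⟩, fun y => x.2 y.1⟩)
    unfold heavyD
    rw [Set.ncard_pos (Set.toFinite _)]
    refine ⟨v, h1.trans ?_, h2.trans ?_⟩
    · exact Set.ncard_le_ncard (fun w hw => hw.1) (Set.toFinite _)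
    · exact Set.ncard_le_ncard (fun w hw => hw.1) (Set.toFinite _)

end Pool.Agent.Results.MP_7589f8_co.BiHeavyForced
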